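import Pool.Agent.Y856.Metric.Prob

/-! From unweighted bounds with lengths `y(q)` to weighted bounds with the maximum over real lengths. -/

set_option autoImplicit false

namespace Pool.Agent.Q180.WD

open Finset
open Pool.Agent.H300R2.WEH
open Pool.Agent.Y856 (dev dev_nonneg dev_triv dev_small pi1 pi2 pi2_one err_le_errMax)

/-- the prime number theorem -/
lemma pnt (U : ℕ) : ∃ N0 : ℕ, ∀ N : ℕ, N0 ≤ N → errMax N 1 0 ≤ N / Real.log N ^ U := by
  obtain ⟨B, x0, h⟩ := famMax U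
  have h2 := (Real.isLittleO_pow_log_id_atTop (n := B)).bound (c := 1) (by norm_num)
  obtain ⟨Y, hY⟩ := Filter.eventually_atTop.1 h2
  refine ⟨max (max x0 3) ⌈Y⌉₊, fun N hN => ?_⟩
  have hN1 : x0 ≤ N := ((le_max_left _ _).trans (le_max_left _ _)).trans hN
  have hN3 : 3 ≤ N := ((le_max_right _ _).trans (le_max_left _ _)).trans hN
  have hN3r : (3 : ℝ) ≤ N := by exact_mod_cast hN3
  have h3 := hY N ((Nat.le_ceil Y).trans (by exact_mod_cast (le_max_right _ _).trans hN))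
  have hl : 0 < Real.log N := Real.log_pos (by linarith)
  have h5 : 0 < Real.log N ^ B := by positivity
  rw [Real.norm_of_nonneg h5.le, id, Real.norm_of_nonneg (by linarith), one_mul] at h3
  have h6 : (1 : ℝ) ≤ N / Real.log N ^ B := by rwa [le_div_iff₀ h5, one_mul]
  have h7 := h N hN1 1 le_rfl 1 (by simpa using h6) (by simpa using h6)
    (fun q => if q = 1 then {0} else ∅) ⟨by
      intro q a ha
      by_cases hq : q = 1
      · subst hq
        simp at ha
        subst ha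
        simp
      · simp [hq] at ha, by
      intro q
      by_cases hq : q = 1
      · simp [hq]
      · simp [hq]⟩
  simpa using h7

lemma piR_floor (y : ℝ) (q a : ℕ) : (piR y q a : ℝ) = pi2 ⌊y⌋₊ q a := rfl

/-- the maximum over real lengths is at most the deviation for one length -/
lemma errMax_dev (N q a : ℕ) (hN : 2 ≤ N) (hq : 1 ≤ q) : ∃ n : ℕ, n ≤ N ∧
    errMax N q a ≤ dev n q a + errMax N 1 0 * (1 / (Nat.totient q : ℝ)) := by
  have hφ : (1 : ℝ) ≤ Nat.totient q := by exact_mod_cast Nat.totient_pos.mpr (by omega)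
  have hφ0 : (0 : ℝ) < Nat.totient q := by linarith
  obtain ⟨n, hn, hmax⟩ := (range (N + 1)).exists_max_image (fun n => dev n q a) ⟨0, by simp⟩
  refine ⟨n, by rw [mem_range] at hn; omega, ?_⟩
  have hne : Nonempty (Set.Icc (2 : ℝ) N) := ⟨⟨2, le_rfl, by exact_mod_cast hN⟩⟩
  apply ciSup_le
  rintro ⟨y, hy2, hyN⟩
  have h1 : dev ⌊y⌋₊ q a ≤ dev n q a := by
    apply hmax
    rw [mem_range]
    have : ⌊y⌋₊ ≤ N := Nat.floor_le_of_le hyN
    omega
  have h2 := err_le_errMax N 1 0 le_rfl y hy2 hyN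
  show err y q a ≤ _
  unfold err at h2 ⊢
  rw [piR_floor] at h2 ⊢
  rw [pi2_one, Nat.totient_one, Nat.cast_one, div_one] at h2
  unfold dev at h1 ⊢
  set I := ∫ t in (2 : ℝ)..y, 1 / Real.log t
  have e : pi2 ⌊y⌋₊ q a - I / (Nat.totient q : ℝ) = (pi2 ⌊y⌋₊ q a - pi1 ⌊y⌋₊ / (Nat.totient q : ℝ)) +
      (pi1 ⌊y⌋₊ - I) / (Nat.totient q : ℝ) := by ring
  rw [e]
  refine (abs_add_le _ _).trans ?_
  apply add_le_add h1
  rw [abs_div, abs_of_pos hφ0, mul_one_div]
  gcongr

/-- weights and maxima over the lengths -/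
theorem conv (κ : ℝ) (hκ : 1 ≤ κ) (U : ℕ) : ∃ W N0 : ℕ, ∀ N : ℕ, N0 ≤ N → ∀ (P : Finset ℕ) (l : ℕ → ℕ),
    P ⊆ Icc 1 N → ∀ A : ℝ, 1 ≤ A →
    (∀ y : ℕ → ℕ, (∀ q, y q ≤ N) → ∑ q ∈ P, dev (y q) q (l q) ≤ A * N / Real.log N ^ W) →
    ∑ q ∈ P, κ ^ q.primeFactors.card * errMax N q (l q) ≤ A * N / Real.log N ^ U := by
  obtain ⟨c, hc⟩ := sum_log (κ ^ 2) (one_le_pow₀ hκ)
  obtain ⟨c1, hc1⟩ := sum_log 1 le_rfl
  obtain ⟨W, hW⟩ := upWeight κ c U
  obtain ⟨n0, hn0⟩ := pnt (W + 1 + c1)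
  refine ⟨W + 1, max n0 8, fun N hN P l hP A hA hyp => ?_⟩
  have hN0 : n0 ≤ N := (le_max_left _ _).trans hN
  have hN8 : 8 ≤ N := (le_max_right _ _).trans hN
  have h8 : (8 : ℝ) ≤ N := by exact_mod_cast hN8
  have hNpos : (0 : ℝ) < N := by linarith
  have hl : 2 ≤ Real.log N := by
    have h1 : Real.log 8 ≤ Real.log N := Real.log_le_log (by norm_num) h8
    have h2 : Real.log 8 = 3 * Real.log 2 := by
      rw [show (8 : ℝ) = 2 ^ 3 by norm_num, Real.log_pow]; norm_num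
    have := Real.log_two_gt_d9
    linarith
  have hl0 : 0 < Real.log N := by linarith
  have hpos : ∀ q ∈ P, 1 ≤ q ∧ q ≤ N := fun q hq => mem_Icc.1 (hP hq)
  have hx : ∀ q : ℕ, ∃ n : ℕ, n ≤ N ∧ (q ∈ P → errMax N q (l q) ≤
      dev n q (l q) + errMax N 1 0 * (1 / (Nat.totient q : ℝ))) := by
    intro q
    by_cases hq : q ∈ P
    · obtain ⟨n, h1, h2⟩ := errMax_dev N q (l q) (by omega) (hpos q hq).1
      exact ⟨n, h1, fun _ => h2⟩
    · exact ⟨0, Nat.zero_le _, fun h => absurd h hq⟩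
  choose n hn1 hn2 using hx
  have hsum : ∑ q ∈ P, errMax N q (l q) ≤ A * N / Real.log N ^ W := by
    have h1 := hyp n hn1
    have h2 : ∑ q ∈ P, 1 / (Nat.totient q : ℝ) ≤ Real.log N ^ c1 := by
      refine le_trans ?_ (hc1 N hN8)
      simp only [one_pow]
      exact sum_le_sum_of_subset_of_nonneg hP (fun q _ _ => by positivity)
    have h3 : errMax N 1 0 * ∑ q ∈ P, 1 / (Nat.totient q : ℝ) ≤ N / Real.log N ^ (W + 1) := by
      calc errMax N 1 0 * ∑ q ∈ P, 1 / (Nat.totient q : ℝ) ≤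
          N / Real.log N ^ (W + 1 + c1) * Real.log N ^ c1 :=
            mul_le_mul (hn0 N hN0) h2 (sum_nonneg fun _ _ => by positivity) (by positivity)
        _ = N / Real.log N ^ (W + 1) := by
            rw [pow_add _ (W + 1) c1]
            field_simp
    have h4 : N / Real.log N ^ (W + 1) ≤ A * N / Real.log N ^ (W + 1) := by
      apply div_le_div_of_nonneg_right _ (by positivity)
      nlinarith
    calc ∑ q ∈ P, errMax N q (l q) ≤
        ∑ q ∈ P, (dev (n q) q (l q) + errMax N 1 0 * (1 / (Nat.totient q : ℝ))) :=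
          sum_le_sum fun q hq => hn2 q hq
      _ = ∑ q ∈ P, dev (n q) q (l q) + errMax N 1 0 * ∑ q ∈ P, 1 / (Nat.totient q : ℝ) := by
          rw [sum_add_distrib, mul_sum]
      _ ≤ 2 * (A * N / Real.log N ^ (W + 1)) := by linarith
      _ ≤ A * N / Real.log N ^ W := by
          rw [pow_succ, ← div_div, ← mul_div_assoc, div_le_iff₀ hl0, mul_comm]
          apply mul_le_mul_of_nonneg_left hl
          have : (0 : ℝ) ≤ A := by linarith
          positivity
  refine hW N hN8 P (fun q => q) (fun q => errMax N q (l q)) A (by linarith) ?_ ?_ hsum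
  · intro q hq
    exact ⟨errMax_nonneg _ _ _, errMax_triv N q (l q) (by omega) (hpos q hq).1 (hpos q hq).2⟩
  · refine le_trans (le_trans ?_ (hc N hN8)) ?_
    · exact sum_le_sum_of_subset_of_nonneg hP (fun q _ _ => by positivity)
    · have : 0 ≤ Real.log N ^ c := by positivity
      nlinarith

/-- the maximum over the real lengths, for integer residues -/
lemma errMax_int (N d : ℕ) (a : ℤ) (hd : 1 ≤ d) :
    (⨆ y : Set.Icc (2 : ℝ) N, |((((Icc 1 ⌊(y : ℝ)⌋₊).filter (fun p : ℕ => p.Prime ∧ (p : ℤ) ≡ a [ZMOD d])).card : ℕ) : ℝ) -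
      (∫ t in (2 : ℝ)..y, 1 / Real.log t) / (Nat.totient d : ℝ)|) = errMax N d (a % d).toNat := by
  unfold errMax err piR
  congr 1
  ext y
  congr 3
  have : ∀ p : ℕ, ((p : ℤ) ≡ a [ZMOD d]) ↔ (p ≡ (a % d).toNat [MOD d]) := by
    intro p
    rw [← Int.natCast_modEq_iff, (Pool.Agent.Y856.res_facts d hd a).2]
    constructor
    · intro h2
      exact h2.trans (Int.mod_modEq _ _).symm
    · intro h2
      exact h2.trans (Int.mod_modEq _ _)
  apply congrArg
  apply filter_congr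
  intro p _
  rw [this]

/-- the bound for random classes, with weights -/
theorem weighted_EHP {θ : ℝ} (hθ : θ < 1) {T : ℕ → Finset ℤ} (h : Pool.Agent.Y856.EHP θ T)
    (κ : ℝ) (hκ : 1 ≤ κ) (U : ℕ) : ∃ N0 : ℕ, ∀ N : ℕ, N0 ≤ N → ∀ a : ℕ → ℤ,
    ∑ d ∈ (Icc 1 ⌊(N : ℝ) ^ θ⌋₊).filter (fun d => a d ∈ T d ∧ Int.gcd (a d) d = 1),
      κ ^ d.primeFactors.card * errMax N d (a d % d).toNat ≤ N / Real.log N ^ U := by
  obtain ⟨W, n0, h0⟩ := conv κ hκ (U + 1)
  obtain ⟨C, hC⟩ := h (W + 1 : ℝ) (by positivity)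
  obtain ⟨C', hC'⟩ : ∃ C' : ℝ, C' = max C 1 := ⟨_, rfl⟩
  have hC1 : 1 ≤ C' := by rw [hC']; exact le_max_right _ _
  have hCC : C ≤ C' := by rw [hC']; exact le_max_left _ _
  have hev := (Real.tendsto_log_atTop.comp tendsto_natCast_atTop_atTop).eventually
    (Filter.eventually_ge_atTop (max C' 1))
  obtain ⟨n1, hn1⟩ := Filter.eventually_atTop.1 hev
  refine ⟨max (max n0 n1) 3, fun N hN a => ?_⟩
  have hN0 : n0 ≤ N := ((le_max_left _ _).trans (le_max_left _ _)).trans hN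
  have hN1 : n1 ≤ N := ((le_max_right _ _).trans (le_max_left _ _)).trans hN
  have hN3 : 3 ≤ N := (le_max_right _ _).trans hN
  have hN3r : (3 : ℝ) ≤ N := by exact_mod_cast hN3
  have hl : max C' 1 ≤ Real.log N := hn1 N hN1
  have hl1 : 1 ≤ Real.log N := (le_max_right _ _).trans hl
  have hlC : C' ≤ Real.log N := (le_max_left _ _).trans hl
  have hl0 : 0 < Real.log N := by linarith
  have hNθ : ⌊(N : ℝ) ^ θ⌋₊ ≤ N := by
    have h1 : (N : ℝ) ^ θ ≤ N := by
      calc (N : ℝ) ^ θ ≤ (N : ℝ) ^ (1 : ℝ) := Real.rpow_le_rpow_of_exponent_le (by linarith) hθ.le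
        _ = N := Real.rpow_one _
    have h2 := Nat.floor_le_floor h1
    rwa [Nat.floor_natCast] at h2
  have key := h0 N hN0 ((Icc 1 ⌊(N : ℝ) ^ θ⌋₊).filter (fun d => a d ∈ T d ∧ Int.gcd (a d) d = 1))
    (fun d => (a d % d).toNat) (by
      intro q hq
      rw [mem_filter, mem_Icc] at hq
      rw [mem_Icc]
      omega) C' hC1 (by
      intro y hy
      have h1 := hC N (by omega) y hy a
      have h2 : ∑ q ∈ (Icc 1 ⌊(N : ℝ) ^ θ⌋₊).filter (fun d => a d ∈ T d ∧ Int.gcd (a d) d = 1),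
          dev (y q) q (a q % q).toNat =
          ∑ q ∈ (Icc 1 ⌊(N : ℝ) ^ θ⌋₊).filter (fun q => a q ∈ T q ∧ Int.gcd (a q) q = 1),
      |(Pool.Agent.Y856.piZ (y q) q (a q) : ℝ) - (Pool.Agent.Y856.piN (y q) : ℝ) / (Nat.totient q : ℝ)| := by
        apply sum_congr rfl
        intro q hq
        rw [mem_filter, mem_Icc] at hq
        exact (Pool.Agent.Y856.dev_eq _ _ hq.1.1 _).symm
      rw [h2]
      refine h1.trans ?_
      have h3 : Real.log N ^ (W + 1 : ℝ) = Real.log N ^ (W + 1) := by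
        rw [← Real.rpow_natCast]
        push_cast
        rfl
      rw [h3]
      have h4 : (N : ℝ) / Real.log N ^ (W + 1) ≤ N / Real.log N ^ W := by
        apply div_le_div_of_nonneg_left (by linarith) (by positivity)
        exact pow_le_pow_right₀ hl1 (by omega)
      have h5 : 0 ≤ (N : ℝ) / Real.log N ^ (W + 1) := by positivity
      calc C * ((N : ℝ) / Real.log N ^ (W + 1)) ≤ C' * ((N : ℝ) / Real.log N ^ (W + 1)) :=
            mul_le_mul_of_nonneg_right hCC h5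
        _ ≤ C' * (N / Real.log N ^ W) := mul_le_mul_of_nonneg_left h4 (by linarith)
        _ = _ := by ring)
  refine key.trans ?_
  rw [pow_succ, div_le_div_iff₀ (by positivity) (by positivity)]
  have h6 : 0 ≤ (N : ℝ) * Real.log N ^ U := by positivity
  nlinarith

end Pool.Agent.Q180.WD
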