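import Pool.Agent.Q56.TF.Base

/-! Arbitrary integral selections near a real family with nearly minimal energy. -/

set_option autoImplicit false

namespace Pool.Agent.Q180.WD
open Finset Filter
open Pool.Agent.H373R2.T7 (energy ev_L')
open Pool.Agent.Q56.TF (renergy energy_near)

theorem near_gen (p A B C : ℕ) : ∃ B' C' N₀ : ℕ, ∀ N : ℕ, N₀ ≤ N → ∀ (x : ℕ) (r : ℕ → ℝ),
    (∀ m ∈ Icc 1 x, |r m| ≤ B * N) → (renergy p x r : ℝ) * N ≤ Real.log N ^ C * (x : ℝ) ^ (2 * p) →
    ∀ s : ℕ → ℤ, (∀ m ∈ Icc 1 x, |(s m : ℝ) - r m| ≤ Real.log N ^ A) → (∀ m ∈ Icc 1 x, |s m| ≤ B' * N) ∧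
      (energy p x s : ℝ) * N ≤ Real.log N ^ C' * (x : ℝ) ^ (2 * p) := by
  obtain ⟨N1, h1⟩ := ev_L' (16 * p + 4)
  have hlin : ∀ᶠ N : ℕ in atTop, Real.log N ^ A + 2 ≤ N := by
    have h3 := isLittleO_log_rpow_rpow_atTop (s := 1) A (show (0 : ℝ) < 1 by norm_num)
    have h4 : Tendsto (fun x : ℝ => Real.log x ^ A / x) atTop (nhds 0) := by
      refine h3.tendsto_div_nhds_zero.congr fun x => ?_
      rw [Real.rpow_one]
      congr 1
      exact_mod_cast Real.rpow_natCast (Real.log x) A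
    have h5 := (h4.comp tendsto_natCast_atTop_atTop).eventually (eventually_lt_nhds (show (0 : ℝ) < 1 / 2 by norm_num))
    filter_upwards [h5, eventually_ge_atTop 4] with N h6 h7
    have hN0 : (0 : ℝ) < N := by exact_mod_cast (by omega : 0 < N)
    simp only [Function.comp] at h6
    rw [div_lt_iff₀ hN0] at h6
    have : (4 : ℝ) ≤ N := by exact_mod_cast h7
    linarith
  obtain ⟨N2, h2⟩ := eventually_atTop.1 hlin
  refine ⟨B + 1, C + A + 1, N1 + N2 + 1, fun N hN x r hr hE s hs => ?_⟩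
  have hL := h1 N (by omega)
  have hN2 := h2 N (by omega)
  have hL1 : (1 : ℝ) ≤ Real.log N := by
    have : (1 : ℝ) ≤ ((16 * p + 4 : ℕ) : ℝ) := by push_cast; linarith [(Nat.cast_nonneg p : (0 : ℝ) ≤ p)]
    linarith
  have hL0 : 0 < Real.log N := by linarith
  have hLA : 1 ≤ Real.log N ^ A := one_le_pow₀ hL1
  obtain ⟨H, hH⟩ : ∃ H : ℕ, H = ⌈Real.log N ^ A⌉₊ := ⟨_, rfl⟩
  have hH1 : Real.log N ^ A ≤ H := by rw [hH]; exact Nat.le_ceil _
  have hH2 : (H : ℝ) < Real.log N ^ A + 1 := by rw [hH]; exact Nat.ceil_lt_add_one (by positivity)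
  refine ⟨fun m hm => ?_, ?_⟩
  · have h3 := hs m hm
    have h4 := hr m hm
    have h5 : |(s m : ℝ)| ≤ (B + 1) * N := by
      have e : (s m : ℝ) = (s m - r m) + r m := by ring
      rw [e]
      refine (abs_add_le _ _).trans ?_
      linarith
    have h6 : ((|s m| : ℤ) : ℝ) ≤ (((B + 1 : ℕ) : ℤ) * (N : ℤ) : ℤ) := by
      push_cast
      exact h5
    exact_mod_cast h6
  · have h3 : (energy p x s : ℝ) ≤ (4 * p * H + 3) * renergy p x r := by
      exact_mod_cast energy_near p x H r s (fun m hm => (hs m hm).trans hH1)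
    have h4 : (4 * (p : ℝ) * H + 3) ≤ Real.log N ^ (A + 1) := by
      have hp0 : (0 : ℝ) ≤ p := Nat.cast_nonneg p
      have h5 : (H : ℝ) ≤ 3 * Real.log N ^ A := by linarith
      calc (4 * (p : ℝ) * H + 3) ≤ 4 * p * (3 * Real.log N ^ A) + 3 * Real.log N ^ A := by
            apply add_le_add
            · exact mul_le_mul_of_nonneg_left h5 (by positivity)
            · linarith
        _ = (12 * p + 3) * Real.log N ^ A := by ring
        _ ≤ Real.log N * Real.log N ^ A := by
            apply mul_le_mul_of_nonneg_right _ (by positivity)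
            push_cast at hL
            linarith
        _ = _ := by rw [pow_succ]; ring
    calc (energy p x s : ℝ) * N ≤ ((4 * p * H + 3) * renergy p x r) * N := by gcongr
      _ = (4 * p * H + 3) * (renergy p x r * N) := by ring
      _ ≤ Real.log N ^ (A + 1) * (Real.log N ^ C * (x : ℝ) ^ (2 * p)) := by
          apply mul_le_mul h4 hE (by positivity) (by positivity)
      _ = _ := by
          rw [show C + A + 1 = (A + 1) + C by ring, pow_add]
          ring

end Pool.Agent.Q180.WD
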