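import Pool.Agent.Q180.WD.Conv
import Pool.Agent.Y882.EHF

/-! Separated families of residue systems: weights and the maximum over the lengths. -/

set_option autoImplicit false

namespace Pool.Agent.Q180.WD

open Finset
open Pool.Agent.H300R2.WEH
open Pool.Agent.Y856 (pi1 pi2 pi2_one err_le_errMax)
open Pool.Agent.Y882.EHF (coinc S)

lemma evlog (c : ℝ) (B : ℕ) : ∃ N0 : ℕ, ∀ N : ℕ, N0 ≤ N → c * Real.log N ^ B ≤ N ∧ c ≤ Real.log N := by
  have h2 := (Real.isLittleO_pow_log_id_atTop (n := B)).bound (c := 1 / (|c| + 1)) (by positivity)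
  obtain ⟨Y, hY⟩ := Filter.eventually_atTop.1 h2
  have h3 := (Real.tendsto_log_atTop.comp (tendsto_natCast_atTop_atTop (R := ℝ))).eventually_ge_atTop (max c 1)
  obtain ⟨n1, hn1⟩ := Filter.eventually_atTop.1 h3
  refine ⟨max (max n1 3) ⌈Y⌉₊, fun N hN => ?_⟩
  have hN1 : n1 ≤ N := ((le_max_left _ _).trans (le_max_left _ _)).trans hN
  have hN3 : 3 ≤ N := ((le_max_right _ _).trans (le_max_left _ _)).trans hN
  have hN3r : (3 : ℝ) ≤ N := by exact_mod_cast hN3
  have h4 := hY N ((Nat.le_ceil Y).trans (by exact_mod_cast (le_max_right _ _).trans hN))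
  have h5 : max c 1 ≤ Real.log N := hn1 N hN1
  have hl : 0 < Real.log N := Real.log_pos (by linarith)
  have h6 : 0 < Real.log N ^ B := by positivity
  rw [Real.norm_of_nonneg h6.le, id, Real.norm_of_nonneg (by linarith), one_div, inv_mul_eq_div,
    le_div_iff₀ (by positivity)] at h4
  refine ⟨?_, (le_max_left _ _).trans h5⟩
  calc c * Real.log N ^ B ≤ (|c| + 1) * Real.log N ^ B := by
        apply mul_le_mul_of_nonneg_right _ h6.le
        linarith [le_abs_self c]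
    _ ≤ N := by linarith

/-- the comparison of the two error terms at an integer length -/
lemma eL_le (N n q l : ℕ) (hn : n ≤ N) (hq : 1 ≤ q) :
    eL n q l ≤ |pi2 n q l - pi1 n / (Nat.totient q : ℝ)| + (errMax N 1 0 + 2) * (1 / (Nat.totient q : ℝ)) := by
  have hφ : (1 : ℝ) ≤ Nat.totient q := by exact_mod_cast Nat.totient_pos.mpr (by omega)
  have hφ0 : (0 : ℝ) < Nat.totient q := by linarith
  have hE0 := errMax_nonneg N 1 0
  have key : |pi1 n - Pool.Agent.H442R2.EHI.lis n| ≤ errMax N 1 0 + 2 := by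
    rcases Nat.lt_or_ge n 2 with h | h
    · have h1 : pi1 n = 0 := by
        unfold pi1
        rw [Nat.cast_eq_zero, card_eq_zero, filter_eq_empty_iff]
        intro p hp h2
        have := h2.two_le
        rw [mem_Icc] at hp
        omega
      have h2 : Pool.Agent.H442R2.EHI.lis n = 0 := by
        unfold Pool.Agent.H442R2.EHI.lis
        rw [Icc_eq_empty (by omega), sum_empty]
      rw [h1, h2, sub_zero, abs_zero]
      linarith
    · have h1 := err_le_errMax N 1 0 le_rfl n (by exact_mod_cast h) (by exact_mod_cast hn)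
      have h2 := Pool.Agent.H442R2.EHI.FinalOf.lis_sub n h
      unfold err at h1
      rw [Pool.Agent.Y856.piR_nat, pi2_one, Nat.totient_one, Nat.cast_one, div_one] at h1
      set I := ∫ t in (2 : ℝ)..(n : ℝ), 1 / Real.log t
      have e : pi1 n - Pool.Agent.H442R2.EHI.lis n = (pi1 n - I) - (Pool.Agent.H442R2.EHI.lis n - I) := by ring
      rw [e]
      exact (abs_sub _ _).trans (add_le_add h1 h2)
  unfold eL
  have e : Pool.Agent.H442R2.EHI.piAP n q l - Pool.Agent.H442R2.EHI.lis n / (Nat.totient q : ℝ) =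
      (pi2 n q l - pi1 n / (Nat.totient q : ℝ)) + (pi1 n - Pool.Agent.H442R2.EHI.lis n) / (Nat.totient q : ℝ) := by
    have : Pool.Agent.H442R2.EHI.piAP n q l = pi2 n q l := rfl
    rw [this]
    ring
  rw [e]
  refine (abs_add_le _ _).trans (add_le_add le_rfl ?_)
  rw [abs_div, abs_of_pos hφ0, mul_one_div]
  gcongr

/-- the weighted sum of the question for a residue system -/
noncomputable def wtot (κ : ℝ) (N Q : ℕ) (c : ℕ → ℕ) : ℝ :=
  ∑ q ∈ (Icc 1 Q).filter (fun q => (c q).Coprime q), κ ^ q.primeFactors.card * errMax N q (c q)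

/-- few bad systems -/
theorem sep_few (κ : ℝ) (hκ : 1 ≤ κ) (U : ℕ) : ∃ B N₀ : ℕ, ∀ N : ℕ, N₀ ≤ N → ∀ Q : ℕ, (Q : ℝ) * Real.log N ^ B ≤ N →
    ∀ (ι : Type) (I : Finset ι) (c : ι → ℕ → ℕ),
      (∀ i ∈ I, ∀ j ∈ I, i ≠ j → (coinc (c i) (c j) Q : ℝ) * (Q * Real.log N ^ B) ≤ N) →
      (∀ i ∈ I, N / Real.log N ^ U < wtot κ N Q (c i)) →
      (I.card : ℝ) ≤ (Q : ℝ) ^ 2 / N * Real.log N ^ B := by
  classical
  obtain ⟨c2, hc2⟩ := sum_log (κ ^ 2) (one_le_pow₀ hκ)
  obtain ⟨c1, hc1⟩ := sum_log 1 le_rfl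
  obtain ⟨W, hW⟩ := upWeight κ c2 U
  obtain ⟨U1, K, n0, hup⟩ := upMax c1 W
  obtain ⟨n1, hn1⟩ := pnt (U1 + c1 + 2)
  obtain ⟨B2, n2, hfew⟩ := Pool.Agent.Y882.EHF.few (U1 + 1)
  obtain ⟨n3, hgp⟩ := gp_facts K
  obtain ⟨n4, hn4⟩ := evlog (8 * (4 : ℝ) ^ (U1 + 1)) (2 * K + U1 + c1 + B2 + 5)
  obtain ⟨n5, hn5⟩ := evlog (4 * (n2 : ℝ) + 16) (K + 2)
  refine ⟨2 * K + B2 + 4, n0 + n1 + n3 + n4 + n5 + 8, fun N hN Q hQ ι I c hsep hbad => ?_⟩
  have hN8 : 8 ≤ N := by omega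
  have h8 : (8 : ℝ) ≤ N := by exact_mod_cast hN8
  have hN0 : (0 : ℝ) < N := by linarith
  obtain ⟨g1, g2⟩ := hn4 N (by omega)
  obtain ⟨g3, g4⟩ := hn5 N (by omega)
  obtain ⟨L, hL⟩ : ∃ L, L = Real.log (N : ℝ) := ⟨_, rfl⟩
  have hp4 : (1 : ℝ) ≤ 4 ^ (U1 + 1) := one_le_pow₀ (by norm_num)
  have hL8 : 8 ≤ L := by rw [hL]; linarith
  have hL1 : 1 ≤ L := by linarith
  have hL0 : 0 < L := by linarith
  rw [← hL] at g1 g2 g3 g4 hQ
  obtain ⟨J, hJ⟩ : ∃ J, J = JJ K N := ⟨_, rfl⟩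
  obtain ⟨j1, j2, j3⟩ := JJ_facts K N (by rw [← hL]; exact hL1)
  rw [← hJ, ← hL] at j2 j3
  rw [← hJ] at j1
  have hgpN : ∀ j ∈ Icc 1 J, (N : ℝ) / (4 * L ^ K) ≤ gp N J j ∧ gp N J j ≤ N := by
    intro j hj
    rw [hJ] at hj ⊢
    rw [hL]
    exact hgp N (by omega) j hj
  -- the logarithm at the points of the grid
  have hlogn : ∀ j ∈ Icc 1 J, n2 ≤ gp N J j ∧ 0 < Real.log (gp N J j) ∧ Real.log (gp N J j) ≤ L ∧
      2 * L ^ U1 ≤ Real.log (gp N J j) ^ (U1 + 1) := by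
    intro j hj
    obtain ⟨h1, h2⟩ := hgpN j hj
    have hLK : 0 < L ^ K := by positivity
    have h3 : (n2 : ℝ) + 4 ≤ gp N J j := by
      refine le_trans ?_ h1
      rw [le_div_iff₀ (by positivity)]
      have : L ^ (K + 2) = L ^ K * L ^ 2 := pow_add _ _ _
      have h5 : L ^ K ≤ L ^ (K + 2) := pow_le_pow_right₀ hL1 (by omega)
      calc ((n2 : ℝ) + 4) * (4 * L ^ K) = (4 * n2 + 16) * L ^ K := by ring
        _ ≤ (4 * n2 + 16) * L ^ (K + 2) := mul_le_mul_of_nonneg_left h5 (by positivity)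
        _ ≤ N := g3
    have hn2 : n2 ≤ gp N J j := by
      have : (n2 : ℝ) ≤ gp N J j := by linarith
      exact_mod_cast this
    have hg0 : (0 : ℝ) < gp N J j := by
      have : (0 : ℝ) ≤ n2 := Nat.cast_nonneg _
      linarith
    have hg4 : (4 : ℝ) ≤ gp N J j := by
      have : (0 : ℝ) ≤ n2 := Nat.cast_nonneg _
      linarith
    have hlogpos : 0 < Real.log (gp N J j) := Real.log_pos (by linarith)
    have hlogle : Real.log (gp N J j) ≤ L := by
      rw [hL]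
      exact Real.log_le_log hg0 (by exact_mod_cast h2)
    -- `N ≤ g ^ 2`
    have hsq : (N : ℝ) ≤ (gp N J j : ℝ) ^ 2 := by
      have h5 : (4 * L ^ K) ^ 2 ≤ N := by
        calc (4 * L ^ K) ^ 2 = 16 * L ^ (2 * K) := by rw [mul_pow, ← pow_mul]; norm_num [mul_comm]
          _ ≤ (8 * 4 ^ (U1 + 1)) * L ^ (2 * K + U1 + c1 + B2 + 5) := by
              apply mul_le_mul _ (pow_le_pow_right₀ hL1 (by omega)) (by positivity) (by positivity)
              have : (4 : ℝ) ^ 1 ≤ 4 ^ (U1 + 1) := pow_le_pow_right₀ (by norm_num) (by omega)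
              linarith
          _ ≤ N := g1
      calc (N : ℝ) = N ^ 2 / N := by field_simp
        _ ≤ N ^ 2 / (4 * L ^ K) ^ 2 := div_le_div_of_nonneg_left (by positivity) (by positivity) h5
        _ = (N / (4 * L ^ K)) ^ 2 := by rw [div_pow]
        _ ≤ _ := pow_le_pow_left₀ (by positivity) h1 2
    have hhalf : L ≤ 2 * Real.log (gp N J j) := by
      have h6 := Real.log_le_log hN0 hsq
      rw [Real.log_pow] at h6
      rw [hL]
      exact_mod_cast h6
    refine ⟨hn2, hlogpos, hlogle, ?_⟩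
    have h7 : (L / 2) ^ (U1 + 1) ≤ Real.log (gp N J j) ^ (U1 + 1) :=
      pow_le_pow_left₀ (by positivity) (by linarith) _
    refine le_trans ?_ h7
    rw [div_pow, le_div_iff₀ (by positivity), pow_succ L U1]
    have h9 : (2 : ℝ) ^ (U1 + 1) ≤ 4 ^ (U1 + 1) := pow_le_pow_left₀ (by norm_num) (by norm_num) _
    have h10 : 0 < L ^ U1 := by positivity
    calc 2 * L ^ U1 * 2 ^ (U1 + 1) = L ^ U1 * (2 * 2 ^ (U1 + 1)) := by ring
      _ ≤ L ^ U1 * L := mul_le_mul_of_nonneg_left (by linarith) h10.le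
  -- sums over the moduli
  obtain ⟨P, hP⟩ : ∃ P : ι → Finset ℕ, P = fun i => (Icc 1 Q).filter (fun q => (c i q).Coprime q) := ⟨_, rfl⟩
  have hQN : Q ≤ N := by
    have h1 : (1 : ℝ) ≤ L ^ (2 * K + B2 + 4) := one_le_pow₀ hL1
    have h2 : (Q : ℝ) ≤ N := le_trans (le_mul_of_one_le_right (Nat.cast_nonneg _) h1) hQ
    exact_mod_cast h2
  have hPN : ∀ i, P i ⊆ Icc 1 N := by
    intro i q hq
    rw [hP, mem_filter, mem_Icc] at hq
    rw [mem_Icc]
    omega
  have hbadj : ∀ i ∈ I, ∃ j ∈ Icc 1 J, (gp N J j : ℝ) / Real.log (gp N J j) ^ (U1 + 1) < S (gp N J j) Q (c i) := by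
    intro i hi
    by_contra hcon
    push Not at hcon
    have hφ : ∑ q ∈ P i, 1 / (Nat.totient q : ℝ) ≤ L ^ c1 := by
      rw [hL]
      refine le_trans ?_ (hc1 N hN8)
      simp only [one_pow]
      exact sum_le_sum_of_subset_of_nonneg (hPN i) (fun q _ _ => by positivity)
    have h1 : ∀ j ∈ Icc 1 J, ∑ q ∈ P i, eL (gp N J j) q (c i q) ≤ 1 * N / L ^ U1 := by
      intro j hj
      obtain ⟨k1, k2, k3, k4⟩ := hlogn j hj
      obtain ⟨m1, m2⟩ := hgpN j hj
      have hS : S (gp N J j) Q (c i) ≤ N / (2 * L ^ U1) := by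
        refine (hcon j hj).trans ?_
        have hcast : ((gp N J j : ℕ) : ℝ) ≤ N := by exact_mod_cast m2
        exact div_le_div₀ hN0.le hcast (by positivity) k4
      have hSe : ∑ q ∈ P i, |pi2 (gp N J j) q (c i q) - pi1 (gp N J j) / (Nat.totient q : ℝ)| = S (gp N J j) Q (c i) := by
        rw [hP]
        rfl
      have h2 : (errMax N 1 0 + 2) * ∑ q ∈ P i, 1 / (Nat.totient q : ℝ) ≤ N / (2 * L ^ U1) := by
        have h3 : errMax N 1 0 ≤ N / L ^ (U1 + c1 + 2) := by rw [hL]; exact hn1 N (by omega)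
        have h4 : (2 : ℝ) ≤ N / L ^ (U1 + c1 + 2) := by
          rw [le_div_iff₀ (by positivity)]
          calc 2 * L ^ (U1 + c1 + 2) ≤ (8 * 4 ^ (U1 + 1)) * L ^ (2 * K + U1 + c1 + B2 + 5) := by
                apply mul_le_mul (by linarith) (pow_le_pow_right₀ hL1 (by omega)) (by positivity) (by positivity)
            _ ≤ N := g1
        calc (errMax N 1 0 + 2) * ∑ q ∈ P i, 1 / (Nat.totient q : ℝ) ≤
            (2 * (N / L ^ (U1 + c1 + 2))) * L ^ c1 :=
              mul_le_mul (by linarith) hφ (sum_nonneg fun _ _ => by positivity) (by positivity)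
          _ = (2 / L ^ 2) * (N / L ^ U1) := by
              rw [show U1 + c1 + 2 = U1 + (c1 + 2) by ring, pow_add L U1, pow_add L c1]
              field_simp
          _ ≤ (1 / 2) * (N / L ^ U1) := by
              apply mul_le_mul_of_nonneg_right _ (by positivity)
              rw [div_le_div_iff₀ (by positivity) (by norm_num)]
              nlinarith
          _ = N / (2 * L ^ U1) := by field_simp
      calc ∑ q ∈ P i, eL (gp N J j) q (c i q) ≤
          ∑ q ∈ P i, (|pi2 (gp N J j) q (c i q) - pi1 (gp N J j) / (Nat.totient q : ℝ)| +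
            (errMax N 1 0 + 2) * (1 / (Nat.totient q : ℝ))) :=
            sum_le_sum fun q hq => eL_le N _ q _ m2 (mem_Icc.1 (hPN i hq)).1
        _ = S (gp N J j) Q (c i) + (errMax N 1 0 + 2) * ∑ q ∈ P i, 1 / (Nat.totient q : ℝ) := by
            rw [sum_add_distrib, hSe, ← mul_sum]
        _ ≤ N / (2 * L ^ U1) + N / (2 * L ^ U1) := add_le_add hS h2
        _ = 1 * N / L ^ U1 := by field_simp; norm_num
    have h2 := hup N (by omega) (P i) (fun q => q) (fun q => c i q) 1 (by norm_num)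
      (fun q hq => (mem_Icc.1 (hPN i hq)).1) (by rw [one_mul, ← hL]; exact hφ) (by
        rw [← hJ, ← hL]
        exact h1)
    have h3 := hW N hN8 (P i) (fun q => q) (fun q => errMax N q (c i q)) 1 (by norm_num) (by
      intro q hq
      obtain ⟨m1, m2⟩ := mem_Icc.1 (hPN i hq)
      exact ⟨errMax_nonneg _ _ _, errMax_triv N q (c i q) (by omega) m1 m2⟩) (by
      rw [one_mul]
      exact le_trans (sum_le_sum_of_subset_of_nonneg (hPN i) (fun q _ _ => by positivity)) (hc2 N hN8)) h2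
    have h4 := hbad i hi
    unfold wtot at h4
    rw [one_mul] at h3
    rw [hP] at h3
    linarith
  -- count
  have hcount : ∀ j ∈ Icc 1 J, ((I.filter (fun i => (gp N J j : ℝ) / Real.log (gp N J j) ^ (U1 + 1) <
      S (gp N J j) Q (c i))).card : ℝ) ≤ 4 * ((Q : ℝ) ^ 2 / N * L ^ (K + B2)) := by
    intro j hj
    obtain ⟨k1, k2, k3, k4⟩ := hlogn j hj
    obtain ⟨m1, m2⟩ := hgpN j hj
    have hLK : 0 < L ^ K := by positivity
    have hlB : Real.log (gp N J j) ^ B2 ≤ L ^ B2 := pow_le_pow_left₀ k2.le k3 _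
    have hbig : ∀ t : ℝ, 0 ≤ t → t * L ^ (2 * K + B2 + 4) ≤ N → t * Real.log (gp N J j) ^ B2 ≤ gp N J j := by
      intro t ht h
      refine le_trans ?_ m1
      rw [le_div_iff₀ (by positivity)]
      calc t * Real.log (gp N J j) ^ B2 * (4 * L ^ K) ≤ t * L ^ B2 * (L * L ^ K) := by
            apply mul_le_mul (mul_le_mul_of_nonneg_left hlB ht) _ (by positivity) (by positivity)
            apply mul_le_mul_of_nonneg_right _ hLK.le
            linarith
        _ = t * L ^ (B2 + K + 1) := by ring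
        _ ≤ t * L ^ (2 * K + B2 + 4) := mul_le_mul_of_nonneg_left (pow_le_pow_right₀ hL1 (by omega)) ht
        _ ≤ N := h
    have h1 := hfew (gp N J j) k1 Q (hbig Q (Nat.cast_nonneg _) hQ) ι (I.filter (fun i =>
      (gp N J j : ℝ) / Real.log (gp N J j) ^ (U1 + 1) < S (gp N J j) Q (c i))) c (by
        intro i hi i' hi' hne
        have h2 := hsep i (mem_filter.1 hi).1 i' (mem_filter.1 hi').1 hne
        rw [← hL, ← mul_assoc] at h2
        rw [← mul_assoc]
        exact hbig _ (by positivity) h2) (by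
        intro i hi
        exact (mem_filter.1 hi).2)
    refine h1.trans ?_
    have hg0 : (0 : ℝ) < gp N J j := lt_of_lt_of_le (by positivity) m1
    calc (Q : ℝ) ^ 2 / (gp N J j) * Real.log (gp N J j) ^ B2 ≤ (Q : ℝ) ^ 2 / (N / (4 * L ^ K)) * L ^ B2 := by
          apply mul_le_mul _ hlB (by positivity) (by positivity)
          exact div_le_div_of_nonneg_left (by positivity) (by positivity) m1
      _ = 4 * ((Q : ℝ) ^ 2 / N * L ^ (K + B2)) := by
          rw [pow_add]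
          field_simp
  have hcover : I ⊆ (Icc 1 J).biUnion (fun j => I.filter (fun i => (gp N J j : ℝ) / Real.log (gp N J j) ^ (U1 + 1) <
      S (gp N J j) Q (c i))) := by
    intro i hi
    obtain ⟨j, hj, h1⟩ := hbadj i hi
    rw [mem_biUnion]
    exact ⟨j, hj, mem_filter.2 ⟨hi, h1⟩⟩
  have hz : 0 ≤ (Q : ℝ) ^ 2 / N * L ^ (K + B2) := by positivity
  calc (I.card : ℝ) ≤ ∑ j ∈ Icc 1 J, ((I.filter (fun i => (gp N J j : ℝ) / Real.log (gp N J j) ^ (U1 + 1) <
      S (gp N J j) Q (c i))).card : ℝ) := by exact_mod_cast (card_le_card hcover).trans card_biUnion_le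
    _ ≤ ∑ _j ∈ Icc 1 J, 4 * ((Q : ℝ) ^ 2 / N * L ^ (K + B2)) := sum_le_sum hcount
    _ = J * (4 * ((Q : ℝ) ^ 2 / N * L ^ (K + B2))) := by rw [sum_const, Nat.card_Icc, Nat.add_sub_cancel, nsmul_eq_mul]
    _ ≤ (2 * L ^ K) * (4 * ((Q : ℝ) ^ 2 / N * L ^ (K + B2))) := mul_le_mul_of_nonneg_right j3 (by positivity)
    _ = 8 * ((Q : ℝ) ^ 2 / N * L ^ (2 * K + B2)) := by ring
    _ ≤ L * ((Q : ℝ) ^ 2 / N * L ^ (2 * K + B2)) := mul_le_mul_of_nonneg_right hL8 (by positivity)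
    _ = (Q : ℝ) ^ 2 / N * L ^ (2 * K + B2 + 1) := by ring
    _ ≤ (Q : ℝ) ^ 2 / N * L ^ (2 * K + B2 + 4) := by
        apply mul_le_mul_of_nonneg_left _ (by positivity)
        exact pow_le_pow_right₀ hL1 (by omega)
    _ = (Q : ℝ) ^ 2 / N * Real.log N ^ (2 * K + B2 + 4) := by rw [hL]

open Filter in
/-- few bad members of an affine family -/
theorem sep_affine (κ : ℝ) (hκ : 1 ≤ κ) (U : ℕ) (ε D : ℝ) (hε : 0 < ε) (hD : 0 ≤ D) : ∃ B N₀ : ℕ, ∀ N : ℕ, N₀ ≤ N →
    ∀ Q : ℕ, (Q : ℝ) ≤ (N : ℝ) ^ (1 - ε) → ∀ u v : ℕ → ℕ, (∀ q, 1 ≤ q → (u q).Coprime q) →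
      ∀ A : Finset ℕ, (∀ a ∈ A, (a : ℝ) ≤ (N : ℝ) ^ D ∧
        N / Real.log N ^ U < wtot κ N Q (fun q => a * u q + v q)) →
      (A.card : ℝ) ≤ (Q : ℝ) ^ 2 / N * Real.log N ^ B := by
  obtain ⟨B, N₀, H⟩ := sep_few κ hκ U
  obtain ⟨C, hC0, hC⟩ := Pool.Agent.Y882.EHF.coinc_le (ε / (2 * (D + 1))) (by positivity)
  have ev : ∀ᶠ X : ℝ in atTop, (max 1 C) * Real.log X ^ B ≤ X ^ (ε / 2) :=
    Pool.Agent.H398R2.BV.ev_log (max 1 C) B (ε / 2) (by positivity)
  have evN := tendsto_natCast_atTop_atTop (R := ℝ) |>.eventually ev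
  obtain ⟨x2, hx2⟩ := eventually_atTop.1 evN
  refine ⟨B, max (max N₀ x2) 3, fun N hN Q hQ u v hu A hA => ?_⟩
  have hN0' : N₀ ≤ N := (le_max_left _ _).trans ((le_max_left _ _).trans hN)
  have hx := hx2 N ((le_max_right _ _).trans ((le_max_left _ _).trans hN))
  have hN3 : 3 ≤ N := (le_max_right _ _).trans hN
  have hN1 : (1 : ℝ) ≤ N := by exact_mod_cast (by omega : 1 ≤ N)
  have hN0 : (0 : ℝ) < N := by linarith
  have hl1 : 1 ≤ Real.log N := by
    rw [Real.le_log_iff_exp_le hN0]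
    have : (3 : ℝ) ≤ N := by exact_mod_cast hN3
    linarith [Real.exp_one_lt_d9]
  have hlB : 0 < Real.log N ^ B := by positivity
  have hx' : Real.log N ^ B ≤ (N : ℝ) ^ (ε / 2) := by
    refine le_trans ?_ hx
    exact le_mul_of_one_le_left hlB.le (le_max_left _ _)
  have hxC : C * Real.log N ^ B ≤ (N : ℝ) ^ (ε / 2) := by
    refine le_trans ?_ hx
    exact mul_le_mul_of_nonneg_right (le_max_right _ _) hlB.le
  have hQB : (Q : ℝ) * Real.log N ^ B ≤ N := by
    calc (Q : ℝ) * Real.log N ^ B ≤ (N : ℝ) ^ (1 - ε) * (N : ℝ) ^ (ε / 2) := by gcongr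
      _ = (N : ℝ) ^ (1 - ε / 2) := by rw [← Real.rpow_add hN0]; congr 1; ring
      _ ≤ (N : ℝ) ^ (1 : ℝ) := Real.rpow_le_rpow_of_exponent_le hN1 (by linarith)
      _ = N := Real.rpow_one _
  apply H N hN0' Q hQB ℕ A (fun a q => a * u q + v q)
  · intro a ha b hb hab
    have hD1 : (1 : ℝ) ≤ (N : ℝ) ^ D := Real.one_le_rpow hN1 hD
    have h1 := hC ((N : ℝ) ^ D) hD1 Q u v hu a b (hA a ha).1 (hA b hb).1 hab
    have h2 : ((N : ℝ) ^ D) ^ (ε / (2 * (D + 1))) ≤ (N : ℝ) ^ (ε / 2) := by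
      rw [← Real.rpow_mul hN0.le]
      apply Real.rpow_le_rpow_of_exponent_le hN1
      rw [mul_div_assoc', div_le_div_iff₀ (by positivity) (by norm_num)]
      nlinarith
    calc (coinc (fun q => a * u q + v q) (fun q => b * u q + v q) Q : ℝ) * (Q * Real.log N ^ B)
        ≤ (C * (N : ℝ) ^ (ε / 2)) * ((N : ℝ) ^ (1 - ε) * Real.log N ^ B) := by
          apply mul_le_mul (h1.trans (mul_le_mul_of_nonneg_left h2 hC0.le)) _ (by positivity)
            (by positivity)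
          gcongr
      _ = (C * Real.log N ^ B) * ((N : ℝ) ^ (ε / 2) * (N : ℝ) ^ (1 - ε)) := by ring
      _ ≤ (N : ℝ) ^ (ε / 2) * ((N : ℝ) ^ (ε / 2) * (N : ℝ) ^ (1 - ε)) := by gcongr
      _ = (N : ℝ) ^ (1 : ℝ) := by
          rw [← Real.rpow_add hN0, ← Real.rpow_add hN0]; congr 1; ring
      _ = N := Real.rpow_one _
  · intro a ha
    exact (hA a ha).2

end Pool.Agent.Q180.WD
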